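import Pool.Agent.P8H53.Arc.Upper
import Pool.Agent.Results.MP_f73b56_co.ManyEdges

/-!
The maximum number of edges of arc `k`-visibility graphs.
-/

set_option autoImplicit false

namespace Pool.Agent.Results.MP_f73b56_co.ExactForLargeN

open Pool.Agent.X63

/-- the numbers of edges of the arc `k`-visibility graphs on `n` vertices; `e_k(n)` is the
greatest element of this set -/
def EdgeCounts (k n : ℕ) : Set ℕ :=
  {e | ∃ G : SimpleGraph (Fin n), IsArcVis k G ∧ G.edgeSet.ncard = e}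

/-- (1) Every arc `k`-visibility graph on `n ≥ k + 1` vertices has at most
`3 (k + 1) (n - (k + 2) / 2)` edges.
(2) `e_k(n) = 3 (k + 1) (n - (k + 2) / 2)` for all `n ≥ 6 k + 6`. -/
theorem result :
    (∀ k n : ℕ, k + 1 ≤ n → ∀ e ∈ EdgeCounts k n, 2 * e ≤ 3 * (k + 1) * (2 * n - (k + 2))) ∧
    (∀ k n : ℕ, 6 * k + 6 ≤ n →
      ∃ e, 2 * e = 3 * (k + 1) * (2 * n - (k + 2)) ∧ IsGreatest (EdgeCounts k n) e) := by
  have upper : ∀ k n : ℕ, k + 1 ≤ n → ∀ e ∈ EdgeCounts k n,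
      2 * e ≤ 3 * (k + 1) * (2 * n - (k + 2)) := by
    rintro k n hn e ⟨G, hG, rfl⟩
    have h1 := Pool.Agent.P8H53.Arc.edges_le hG
    have h2 := Pool.Agent.P8H53.Arc.sum_min k n hn
    obtain ⟨m, hm⟩ : ∃ m, 2 * n = m + (k + 2) := ⟨2 * n - (k + 2), by omega⟩
    have h3 : 2 * n - (k + 2) = m := by omega
    rw [h3]
    nlinarith
  refine ⟨upper, fun k n hn => ?_⟩
  obtain ⟨e, he, h⟩ := ManyEdges.result.2 k n (by omega)
  have h0 : 6 * k + 6 - n = 0 := by omega
  rw [h0] at h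
  simp only [Nat.mul_zero, Nat.add_zero] at h
  have hup := upper k n (by omega) e he
  obtain ⟨m, hm⟩ : ∃ m, 2 * n = m + (k + 2) := ⟨2 * n - (k + 2), by omega⟩
  have h3 : 2 * n - (k + 2) = m := by omega
  have heq : 2 * e = 3 * (k + 1) * (2 * n - (k + 2)) := by
    refine le_antisymm hup ?_
    rw [h3]
    rw [hm] at h
    nlinarith
  refine ⟨e, heq, he, fun f hf => ?_⟩
  have := upper k n (by omega) f hf
  omega

end Pool.Agent.Results.MP_f73b56_co.ExactForLargeN
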